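import Pool.Agent.H13.CA.Com

/-!
# H77 CA POW (MP_38e74e_gt, CH-ALL, chapter BIG): powers of the ideal of the variables

* `split`: a series all of whose monomials involve a variable `X i`, `i ∈ S` (`S` finite), is a combination of these `X i`.
* `pow_of_coeff`, `coeff_of_pow`: `f ∈ (X_1, .., X_s) ^ N` iff all coefficients of degree `< N` vanish.
* `algHom_ext_mv`, `algHom_exists_mv`, `mem_Istd`, `Istd_prime`.
-/

open MvPowerSeries

namespace Pool.Agent.H77.CA

open Pool.Agent.H13.CA

section general

variable {σ R : Type*} [CommRing R]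

private theorem coeff_X_mul (i : σ) (g : MvPowerSeries σ R) (d : σ →₀ ℕ) :
    coeff d (X i * g) = if d i ≠ 0 then coeff (d - Finsupp.single i 1) g else 0 := by
  classical
  rw [X_def, coeff_monomial_mul, one_mul]
  by_cases h : d i ≠ 0
  · rw [if_pos h, if_pos]
    rw [Finsupp.single_le_iff]
    omega
  · rw [if_neg h, if_neg]
    rw [Finsupp.single_le_iff]
    omega

theorem split (S : Finset σ) (f : MvPowerSeries σ R)
    (h : ∀ d, coeff d f ≠ 0 → ∃ i ∈ S, d i ≠ 0) :
    ∃ g : σ → MvPowerSeries σ R, f = ∑ i ∈ S, X i * g i ∧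
      ∀ i d, coeff d (g i) ≠ 0 → coeff (d + Finsupp.single i 1) f ≠ 0 := by
  classical
  obtain ⟨c, hc⟩ : ∃ c : (σ →₀ ℕ) → Option σ, ∀ d, coeff d f ≠ 0 →
      ∃ i, c d = some i ∧ i ∈ S ∧ d i ≠ 0 := by
    refine ⟨fun d => if hd : ∃ i ∈ S, d i ≠ 0 then some hd.choose else none, fun d hd => ?_⟩
    have h1 := h d hd
    refine ⟨h1.choose, dif_pos h1, h1.choose_spec⟩
  let g : σ → MvPowerSeries σ R := fun i d =>
    if c (d + Finsupp.single i 1) = some i then coeff (d + Finsupp.single i 1) f else 0
  have hg : ∀ i d, coeff d (g i) =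
      if c (d + Finsupp.single i 1) = some i then coeff (d + Finsupp.single i 1) f else 0 :=
    fun i d => rfl
  refine ⟨g, ?_, ?_⟩
  · ext d
    rw [map_sum]
    by_cases hd : coeff d f = 0
    · rw [hd]
      symm
      refine Finset.sum_eq_zero fun i _ => ?_
      rw [coeff_X_mul]
      by_cases h1 : d i ≠ 0
      · have h2 : d - Finsupp.single i 1 + Finsupp.single i 1 = d := by
          refine tsub_add_cancel_of_le ?_
          rw [Finsupp.single_le_iff]
          omega
        rw [if_pos h1, hg, h2, hd, ite_self]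
      · rw [if_neg h1]
    · obtain ⟨i, hi, hiS, hdi⟩ := hc d hd
      rw [Finset.sum_eq_single i]
      · have h2 : d - Finsupp.single i 1 + Finsupp.single i 1 = d := by
          refine tsub_add_cancel_of_le ?_
          rw [Finsupp.single_le_iff]
          omega
        rw [coeff_X_mul, if_pos hdi, hg, h2, if_pos hi]
      · intro j _ hj
        rw [coeff_X_mul]
        by_cases h1 : d j ≠ 0
        · have h2 : d - Finsupp.single j 1 + Finsupp.single j 1 = d := by
            refine tsub_add_cancel_of_le ?_
            rw [Finsupp.single_le_iff]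
            omega
          rw [if_pos h1, hg, h2, if_neg]
          rw [hi]
          intro h3
          exact hj (Option.some_injective _ h3).symm
        · rw [if_neg h1]
      · intro h1
        exact absurd hiS h1
  · intro i d hd
    rw [hg] at hd
    by_cases h1 : c (d + Finsupp.single i 1) = some i
    · rwa [if_pos h1] at hd
    · rw [if_neg h1] at hd
      exact absurd rfl hd

variable [Finite σ]

theorem pow_of_coeff (N : ℕ) (f : MvPowerSeries σ R)
    (h : ∀ d : σ →₀ ℕ, d.degree < N → coeff d f = 0) :
    f ∈ (Ideal.span (Set.range (X : σ → MvPowerSeries σ R))) ^ N := by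
  classical
  have := Fintype.ofFinite σ
  induction N generalizing f with
  | zero => rw [pow_zero, Ideal.one_eq_top]; exact Submodule.mem_top
  | succ N ih =>
    obtain ⟨g, hg, hg'⟩ := split Finset.univ f (by
      intro d hd
      by_contra hcon
      push Not at hcon
      apply hd
      apply h
      have h1 : d = 0 := by
        ext i
        exact hcon i (Finset.mem_univ i)
      rw [h1, map_zero]
      exact Nat.succ_pos N)
    rw [hg]
    refine Ideal.sum_mem _ fun i _ => ?_
    rw [pow_succ, mul_comm]
    refine Ideal.mul_mem_mul (Ideal.subset_span ⟨i, rfl⟩) (ih (g i) fun d hd => ?_)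
    by_contra hcon
    refine hg' i d hcon (h _ ?_)
    rw [map_add, Finsupp.degree_single]
    omega

omit [Finite σ] in
theorem order_of_pow (N : ℕ) (f : MvPowerSeries σ R)
    (h : f ∈ (Ideal.span (Set.range (X : σ → MvPowerSeries σ R))) ^ N) : (N : ℕ∞) ≤ f.order := by
  have h1 : ∀ f ∈ Ideal.span (Set.range (X : σ → MvPowerSeries σ R)), (1 : ℕ∞) ≤ f.order := by
    intro f hf
    rw [one_le_order_iff_constCoeff_eq_zero]
    have h2 : Ideal.span (Set.range (X : σ → MvPowerSeries σ R)) ≤
        RingHom.ker (constantCoeff (σ := σ) (R := R)) := by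
      rw [Ideal.span_le]
      rintro _ ⟨i, rfl⟩
      exact constantCoeff_X i
    exact h2 hf
  induction N generalizing f with
  | zero => simp
  | succ N ih =>
    rw [pow_succ] at h
    refine Submodule.mul_induction_on h (fun a ha b hb => ?_) (fun a b ha hb => ?_)
    · refine le_trans ?_ le_order_mul
      rw [Nat.cast_add, Nat.cast_one]
      exact add_le_add (ih a ha) (h1 b hb)
    · exact le_trans (le_min ha hb) min_order_le_add

omit [Finite σ] in
theorem coeff_of_pow (N : ℕ) (f : MvPowerSeries σ R)
    (h : f ∈ (Ideal.span (Set.range (X : σ → MvPowerSeries σ R))) ^ N) (d : σ →₀ ℕ)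
    (hd : d.degree < N) : coeff d f = 0 := by
  apply coeff_of_lt_order
  exact lt_of_lt_of_le (by exact_mod_cast hd) (order_of_pow N f h)

omit [Finite σ] in
theorem eq_zero_of_pow (f : MvPowerSeries σ R)
    (h : ∀ N, f ∈ (Ideal.span (Set.range (X : σ → MvPowerSeries σ R))) ^ N) : f = 0 := by
  ext d
  rw [coeff_of_pow _ f (h (d.degree + 1)) d (Nat.lt_succ_self _), map_zero]

theorem mem_span_X (f : MvPowerSeries σ R) :
    f ∈ Ideal.span (Set.range (X : σ → MvPowerSeries σ R)) ↔ constantCoeff f = 0 := by
  rw [← pow_one (Ideal.span (Set.range (X : σ → MvPowerSeries σ R)))]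
  constructor
  · intro h
    exact coeff_of_pow 1 f h 0 (by simp)
  · intro h
    refine pow_of_coeff 1 f fun d hd => ?_
    have h1 : d = 0 := (Finsupp.degree_eq_zero_iff d).1 (by omega)
    rw [h1]
    exact h

/-- a polynomial modulo `(X_1, .., X_s) ^ N` -/
theorem sub_trunc_mem (N : ℕ) (f : MvPowerSeries σ R) :
    f - (truncTotal N f : MvPolynomial σ R) ∈
      (Ideal.span (Set.range (X : σ → MvPowerSeries σ R))) ^ N := by
  refine pow_of_coeff N _ fun d hd => ?_
  rw [map_sub, MvPolynomial.coeff_coe, coeff_truncTotal _ hd, sub_self]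

end general

theorem algHom_ext_mv {k L : Type*} [Field k] [Field L] [Algebra k L] {s t : ℕ}
    {c c' : MvPowerSeries (Fin s) k →ₐ[k] MvPowerSeries (Fin t) L}
    (hc : ∀ i, constantCoeff (c (X i)) = 0) (h : ∀ i, c (X i) = c' (X i)) : c = c' := by
  have key : ∀ b : MvPowerSeries (Fin s) k →ₐ[k] MvPowerSeries (Fin t) L,
      (∀ i, constantCoeff (b (X i)) = 0) → ∀ N, ∀ f ∈ (Ideal.span (Set.range
        (X : Fin s → MvPowerSeries (Fin s) k))) ^ N, b f ∈ (Ideal.span (Set.range
        (X : Fin t → MvPowerSeries (Fin t) L))) ^ N := by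
    intro b hb N f hf
    have h1 : (Ideal.span (Set.range (X : Fin s → MvPowerSeries (Fin s) k))).map
        (b : MvPowerSeries (Fin s) k →+* MvPowerSeries (Fin t) L) ≤
        Ideal.span (Set.range (X : Fin t → MvPowerSeries (Fin t) L)) := by
      rw [Ideal.map_span, Ideal.span_le]
      rintro _ ⟨_, ⟨i, rfl⟩, rfl⟩
      exact (mem_span_X _).2 (hb i)
    have h2 := Ideal.mem_map_of_mem (b : MvPowerSeries (Fin s) k →+* MvPowerSeries (Fin t) L) hf
    rw [Ideal.map_pow] at h2
    exact Ideal.pow_right_mono h1 N h2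
  have hpoly : ∀ q : MvPolynomial (Fin s) k, c (q : MvPowerSeries (Fin s) k) =
      c' (q : MvPowerSeries (Fin s) k) := by
    intro q
    have h1 : c.comp (MvPolynomial.coeToMvPowerSeries.algHom k) =
        c'.comp (MvPolynomial.coeToMvPowerSeries.algHom k) := by
      refine MvPolynomial.algHom_ext fun i => ?_
      rw [AlgHom.comp_apply, AlgHom.comp_apply, MvPolynomial.coeToMvPowerSeries.algHom_apply]
      simp only [MvPolynomial.coe_X, MvPowerSeries.map_X]
      exact h i
    have h2 := congrArg (fun b : MvPolynomial (Fin s) k →ₐ[k] MvPowerSeries (Fin t) L => b q) h1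
    simp only [AlgHom.comp_apply, MvPolynomial.coeToMvPowerSeries.algHom_apply] at h2
    have h3 : (MvPowerSeries.map (algebraMap k k)) (q : MvPowerSeries (Fin s) k) = q := by
      ext d
      rw [coeff_map]
      rfl
    rwa [h3] at h2
  refine AlgHom.ext fun f => ?_
  rw [← sub_eq_zero]
  refine eq_zero_of_pow _ fun N => ?_
  have e : c f - c' f = c (f - (truncTotal N f : MvPolynomial (Fin s) k)) -
      c' (f - (truncTotal N f : MvPolynomial (Fin s) k)) := by
    rw [map_sub, map_sub, hpoly]
    ring
  rw [e]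
  exact Ideal.sub_mem _ (key c hc N _ (sub_trunc_mem N f))
    (key c' (fun i => by rw [← h]; exact hc i) N _ (sub_trunc_mem N f))

theorem algHom_exists_mv {k L : Type*} [Field k] [Field L] [Algebra k L] {s t : ℕ}
    (w : Fin s → MvPowerSeries (Fin t) L) (hw : ∀ i, constantCoeff (w i) = 0) :
    ∃ c : MvPowerSeries (Fin s) k →ₐ[k] MvPowerSeries (Fin t) L, ∀ i, c (X i) = w i := by
  have hw' : HasSubst w := hasSubst_of_constantCoeff_zero hw
  refine ⟨substAlgHom hw', fun i => ?_⟩
  rw [substAlgHom_apply, subst_X hw']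

theorem mem_Istd {k : Type*} [Field k] {m j : ℕ} (f : MvPowerSeries (Fin m) k) :
    f ∈ Istd k m j ↔ ∀ d : Fin m →₀ ℕ, (∀ i : Fin m, i.val < j → d i = 0) → coeff d f = 0 := by
  classical
  constructor
  · intro hf
    unfold Istd at hf
    refine Submodule.span_induction ?_ ?_ ?_ ?_ hf
    · rintro _ ⟨i, hi, rfl⟩ d hd
      rw [coeff_X, if_neg]
      rintro rfl
      have h1 := hd i hi
      rw [Finsupp.single_eq_same] at h1
      exact one_ne_zero h1
    · intro d _
      exact map_zero _
    · intro x y _ _ hx hy d hd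
      rw [map_add, hx d hd, hy d hd, add_zero]
    · intro a x _ hx d hd
      rw [smul_eq_mul, coeff_mul]
      refine Finset.sum_eq_zero fun q hq => ?_
      rw [Finset.HasAntidiagonal.mem_antidiagonal] at hq
      rw [hx q.2, mul_zero]
      intro i hi
      have h1 := hd i hi
      rw [← hq, Finsupp.add_apply] at h1
      omega
  · intro h
    obtain ⟨g, hg, -⟩ := split (Finset.univ.filter fun i : Fin m => i.val < j) f (by
      intro d hd
      by_contra hcon
      push Not at hcon
      refine hd (h d fun i hi => hcon i ?_)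
      rw [Finset.mem_filter]
      exact ⟨Finset.mem_univ _, hi⟩)
    rw [hg]
    refine Ideal.sum_mem _ fun i hi => ?_
    rw [Finset.mem_filter] at hi
    exact Ideal.mul_mem_right _ _ (Ideal.subset_span ⟨i, hi.2, rfl⟩)

theorem Istd_prime (k : Type*) [Field k] (m j : ℕ) : (Istd k m j).IsPrime := by
  classical
  refine ⟨?_, ?_⟩
  · intro h
    have h1 : (1 : MvPowerSeries (Fin m) k) ∈ Istd k m j := by
      rw [h]
      exact Submodule.mem_top
    have h2 := (mem_Istd _).1 h1 0 (fun _ _ => rfl)
    rw [coeff_zero_one] at h2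
    exact one_ne_zero h2
  · intro f g hfg
    by_contra hcon
    push Not at hcon
    obtain ⟨hf, hg⟩ := hcon
    let r : MvPowerSeries (Fin m) k → MvPowerSeries (Fin m) k := fun f d =>
      if ∀ i : Fin m, i.val < j → d i = 0 then coeff d f else 0
    have hr : ∀ f d, coeff d (r f) =
        if ∀ i : Fin m, i.val < j → d i = 0 then coeff d f else 0 := fun f d => rfl
    have hne : ∀ f, f ∉ Istd k m j → r f ≠ 0 := by
      intro f hf h0
      apply hf
      rw [mem_Istd]
      intro d hd
      have h1 := hr f d
      rw [h0, map_zero, if_pos hd] at h1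
      exact h1.symm
    have hprod : r f * r g ≠ 0 := mul_ne_zero (hne f hf) (hne g hg)
    obtain ⟨d, hd⟩ := (ne_zero_iff_exists_coeff_ne_zero _).1 hprod
    rw [coeff_mul] at hd
    by_cases hS : ∀ i : Fin m, i.val < j → d i = 0
    · apply hd
      have h1 := (mem_Istd _).1 hfg d hS
      rw [coeff_mul] at h1
      rw [← h1]
      refine Finset.sum_congr rfl fun q hq => ?_
      rw [Finset.HasAntidiagonal.mem_antidiagonal] at hq
      have h2 : ∀ i : Fin m, i.val < j → q.1 i = 0 := by
        intro i hi
        have h3 := hS i hi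
        rw [← hq, Finsupp.add_apply] at h3
        omega
      have h3 : ∀ i : Fin m, i.val < j → q.2 i = 0 := by
        intro i hi
        have h3 := hS i hi
        rw [← hq, Finsupp.add_apply] at h3
        omega
      rw [hr, hr, if_pos h2, if_pos h3]
    · push Not at hS
      obtain ⟨i, hi, hdi⟩ := hS
      apply hd
      refine Finset.sum_eq_zero fun q hq => ?_
      rw [Finset.HasAntidiagonal.mem_antidiagonal] at hq
      rw [hr, hr]
      by_cases h2 : q.1 i = 0
      · have h3 : ¬ ∀ i : Fin m, i.val < j → q.2 i = 0 := by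
          intro h4
          apply hdi
          rw [← hq, Finsupp.add_apply, h2, h4 i hi]
        rw [if_neg h3, mul_zero]
      · have h3 : ¬ ∀ i : Fin m, i.val < j → q.1 i = 0 := fun h4 => h2 (h4 i hi)
        rw [if_neg h3, zero_mul]

theorem Istd_top (k : Type*) [Field k] (m : ℕ) :
    Istd k m m = RingHom.ker (constantCoeff (σ := Fin m) (R := k)) := by
  ext f
  rw [mem_Istd, RingHom.mem_ker]
  constructor
  · intro h
    exact h 0 (fun _ _ => rfl)
  · intro h d hd
    have hd0 : d = 0 := by
      ext i
      exact hd i i.isLt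
    rw [hd0]
    exact h

theorem Istd_maximal (k : Type*) [Field k] (m : ℕ) : (Istd k m m).IsMaximal := by
  rw [Istd_top]
  refine RingHom.ker_isMaximal_of_surjective _ fun x => ⟨C x, ?_⟩
  exact constantCoeff_C x

end Pool.Agent.H77.CA
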